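import Pool.Agent.MP_ca0a54_nt.H29.Spec

/-! The mean of the total angle of the bad segments is controlled by their number. -/

open Complex MeasureTheory Filter Topology

namespace Pool.Agent.MP_ca0a54_nt.H76

open Pool.Agent.MP_ca0a54_nt.L0 Pool.Agent.MP_ca0a54_nt.H24 Pool.Agent.MP_ca0a54_nt.H29

theorem arctan_le_of_nonneg {w : ℝ} (h : 0 ≤ w) : Real.arctan w ≤ w := by
  have h1 := Real.le_tan (Real.arctan_nonneg.2 h) (Real.arctan_lt_pi_div_two w)
  rwa [Real.tan_arctan] at h1

theorem arctan_ge {z y d : ℝ} (hy : 0 < y) (hd : 0 < d) (h : d ≤ z) :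
    Real.pi / 2 - y / d ≤ Real.arctan (z / y) := by
  have hz : 0 < z := hd.trans_le h
  have h1 := Real.arctan_inv_of_pos (div_pos hz hy)
  have h2 := arctan_le_of_nonneg (inv_pos.2 (div_pos hz hy)).le
  rw [inv_div] at h1 h2
  have h3 : y / z ≤ y / d := div_le_div_of_nonneg_left hy.le hd h
  linarith

theorem cont_g (y u : ℝ) : Continuous fun x : ℝ => Real.arctan ((x - u) / y) :=
  Real.continuous_arctan.comp (by fun_prop)

theorem mono_g {y : ℝ} (hy : 0 < y) (u : ℝ) : Monotone fun x : ℝ => Real.arctan ((x - u) / y) :=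
  fun _ _ h => Real.arctan_mono (div_le_div_of_nonneg_right (by linarith) hy.le)

theorem cont_ang (a y u : ℝ) : Continuous fun x => ang a y x u :=
  ((cont_g y u).comp (continuous_id.add continuous_const)).sub (cont_g y u)

theorem ang_nonneg {a y : ℝ} (ha : 0 < a) (hy : 0 < y) (x u : ℝ) : 0 ≤ ang a y x u :=
  sub_nonneg.2 (mono_g hy u (by linarith : x ≤ x + a))

theorem int_ang {a y : ℝ} (ha : 0 < a) (hy : 0 < y) (u t₁ t₂ : ℝ) :
    ∫ x in t₁..t₂, ang a y x u ≤
      a * (Real.arctan ((t₂ + a - u) / y) - Real.arctan ((t₁ - u) / y)) := by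
  set g : ℝ → ℝ := fun x => Real.arctan ((x - u) / y) with hg
  have hc : Continuous g := cont_g y u
  have hm : Monotone g := mono_g hy u
  have h1 : ∫ x in t₁..t₂, ang a y x u = (∫ x in t₁..t₂, g (x + a)) - ∫ x in t₁..t₂, g x :=
    intervalIntegral.integral_sub
      ((hc.comp (continuous_id.add continuous_const)).intervalIntegrable _ _)
      (hc.intervalIntegrable _ _)
  rw [h1, intervalIntegral.integral_comp_add_right g a,
    intervalIntegral.integral_interval_sub_interval_comm' (hc.intervalIntegrable _ _)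
      (hc.intervalIntegrable _ _) (hc.intervalIntegrable _ _)]
  have h2 : ∫ x in t₂..(t₂ + a), g x ≤ ∫ _x in t₂..(t₂ + a), g (t₂ + a) :=
    intervalIntegral.integral_mono_on (by linarith) (hc.intervalIntegrable _ _)
      (continuous_const.intervalIntegrable _ _) fun x hx => hm hx.2
  have h3 : ∫ _x in t₁..(t₁ + a), g t₁ ≤ ∫ x in t₁..(t₁ + a), g x :=
    intervalIntegral.integral_mono_on (by linarith) (continuous_const.intervalIntegrable _ _)
      (hc.intervalIntegrable _ _) fun x hx => hm hx.1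
  rw [intervalIntegral.integral_const, smul_eq_mul, add_sub_cancel_left] at h2 h3
  change _ ≤ a * (g (t₂ + a) - g t₁)
  linarith

theorem int_near {a y : ℝ} (ha : 0 < a) (hy : 0 < y) (u t₁ t₂ : ℝ) :
    ∫ x in t₁..t₂, ang a y x u ≤ 4 * a := by
  refine (int_ang ha hy u t₁ t₂).trans ?_
  have h1 := Real.arctan_lt_pi_div_two ((t₂ + a - u) / y)
  have h2 := Real.neg_pi_div_two_lt_arctan ((t₁ - u) / y)
  have h3 := Real.pi_le_four
  nlinarith

theorem int_far {a y d : ℝ} (ha : 0 < a) (hy : 0 < y) (hd : 0 < d) {u t₁ t₂ : ℝ}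
    (h : d ≤ t₁ - u ∨ d ≤ u - (t₂ + a)) : ∫ x in t₁..t₂, ang a y x u ≤ a * (y / d) := by
  refine (int_ang ha hy u t₁ t₂).trans (mul_le_mul_of_nonneg_left ?_ ha.le)
  rcases h with h | h
  · have h1 := Real.arctan_lt_pi_div_two ((t₂ + a - u) / y)
    have h2 := arctan_ge hy hd h
    linarith
  · have h1 := Real.neg_pi_div_two_lt_arctan ((t₁ - u) / y)
    have h2 := arctan_ge hy hd h
    have h3 : (t₂ + a - u) / y = -((u - (t₂ + a)) / y) := by ring
    rw [h3, Real.arctan_neg]
    linarith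

theorem cont_pk {y : ℝ} (hy : 0 < y) (u : ℝ) :
    Continuous fun x : ℝ => (y / ((x - u) ^ 2 + y ^ 2)) ^ 2 :=
  (continuous_const.div (by fun_prop) fun x => by positivity).pow 2

theorem int_pk {y : ℝ} (hy : 0 < y) {u A B : ℝ} (hA : A ≤ u - y) (hB : u + y ≤ B) :
    1 / (2 * y) ≤ ∫ x in A..B, (y / ((x - u) ^ 2 + y ^ 2)) ^ 2 := by
  have h1 : ∫ x in (u - y)..(u + y), (y / ((x - u) ^ 2 + y ^ 2)) ^ 2 ≤
      ∫ x in A..B, (y / ((x - u) ^ 2 + y ^ 2)) ^ 2 :=
    intervalIntegral.integral_mono_interval hA (by linarith) hB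
      (Eventually.of_forall fun x => sq_nonneg _) ((cont_pk hy u).intervalIntegrable _ _)
  have h2 : ∫ _x in (u - y)..(u + y), (1 / (2 * y)) ^ 2 ≤
      ∫ x in (u - y)..(u + y), (y / ((x - u) ^ 2 + y ^ 2)) ^ 2 := by
    refine intervalIntegral.integral_mono_on (by linarith)
      (continuous_const.intervalIntegrable _ _) ((cont_pk hy u).intervalIntegrable _ _)
      fun x hx => pow_le_pow_left₀ (by positivity) ?_ 2
    rw [div_le_div_iff₀ (by positivity) (by positivity)]
    nlinarith [hx.1, hx.2]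
  rw [intervalIntegral.integral_const, smul_eq_mul] at h2
  have h3 : (u + y - (u - y)) * (1 / (2 * y)) ^ 2 = 1 / (2 * y) := by
    field_simp
    ring
  linarith

/-- pointwise bound for the Poisson sum at height `1 / L` -/
theorem Fs_sq (hc : CmpStmt) {C T : ℝ} {U : Finset ℝ} {m : ℝ → ℕ} {V : ℝ → ℝ} (hC : 1 ≤ C)
    (hT : 1 ≤ T) (hL : 1 ≤ Real.log T) (hZ : Zs C T U m) (hV : ∀ x, 1 ≤ V x) (hM : Maj T 1 V)
    {x : ℝ} (hx : |x - 3 * T / 2| ≤ T / 20) :
    Fs U m x (1 / Real.log T) ^ 2 ≤ (4 + 8 * C ^ 2) * Real.log T ^ 2 * V x := by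
  set L := Real.log T with hLd
  have hL0 : 0 < L := by linarith
  have hy : 0 < 1 / L := by positivity
  have hy1 : 1 / L ≤ 1 := by rw [div_le_one hL0]; exact hL
  set w : ℂ := x - (1 / L : ℝ) * I with hw
  have hre : w.re = x := by simp only [hw, sub_re, ofReal_re, mul_re, I_re, ofReal_im, I_im]; ring
  have him : w.im = -(1 / L) := by
    simp only [hw, sub_im, ofReal_re, mul_im, I_re, ofReal_im, I_im]; ring
  have hwx : ‖w - x‖ = 1 / L := by
    have : w - x = -((1 / L : ℝ) * I) := by rw [hw]; ring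
    rw [this, norm_neg, norm_mul, norm_I, mul_one, norm_real, Real.norm_of_nonneg hy.le]
  obtain ⟨κ, hκ, -, hl⟩ := hZ.loc x hx
  have h1 := hl w (by
    rw [hwx]
    exact hy1.trans (Real.one_le_sqrt.2 hT)) (by rw [him]; linarith)
  rw [hwx] at h1
  have h2 : C * L / T * (1 / L) ≤ C * L := by
    have h3 : C * L / T ≤ C * L := div_le_self (by positivity) hT
    have h4 : 0 ≤ C * L / T := by positivity
    nlinarith
  have h3 : ‖rs U m w‖ ≤ ‖ld w‖ + 2 * (C * L) := by
    have e : rs U m w = ld w - κ - (ld w - rs U m w - κ) := by ring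
    have h5 := norm_sub_le (ld w - κ) (ld w - rs U m w - κ)
    have h6 := norm_sub_le (ld w) κ
    rw [← e] at h5
    linarith
  have h4 : |Fs U m x (1 / L)| ≤ ‖rs U m w‖ := by
    rw [← (hc U m x (1 / L) hy).1]
    exact abs_im_le_norm _
  have h5 := hM x hx w (by rw [hre, sub_self, abs_zero]; exact hy.le)
    (by rw [him, one_mul, neg_neg]) (by rw [him, neg_neg])
  rw [one_mul] at h5
  have h6 := Real.quadratic_le_exp_of_nonneg (x := ‖ld w‖ / L) (by positivity)
  have h7 : ‖ld w‖ ^ 2 ≤ 2 * L ^ 2 * V x := by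
    have h8 : 0 ≤ ‖ld w‖ / L := by positivity
    have h9 : (‖ld w‖ / L) ^ 2 ≤ 2 * V x := by linarith
    rw [div_pow, div_le_iff₀ (by positivity)] at h9
    linarith
  have h8 : Fs U m x (1 / L) ^ 2 ≤ (‖ld w‖ + 2 * (C * L)) ^ 2 := by
    rw [← sq_abs]
    exact pow_le_pow_left₀ (abs_nonneg _) (h4.trans h3) 2
  have h9 : (C * L) ^ 2 ≤ (C * L) ^ 2 * V x := le_mul_of_one_le_right (by positivity) (hV x)
  nlinarith [sq_nonneg (‖ld w‖ - 2 * (C * L))]

/-- the second moment of the multiplicities -/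
theorem sum_sq (hc : CmpStmt) {C C₃ T : ℝ} {U : Finset ℝ} {m : ℝ → ℕ} {V : ℝ → ℝ} (hC : 1 ≤ C)
    (hT : 100 ≤ T) (hL : 1 ≤ Real.log T) (hZ : Zs C T U m) (hVc : Continuous V)
    (hV : ∀ x, 1 ≤ V x) (hI : ∫ x in T..(2 * T), V x ≤ C₃ * T) (hM : Maj T 1 V)
    {W : Finset ℝ} (hW : W ⊆ U) (hn : ∀ u ∈ W, |u - 3 * T / 2| ≤ T / 25) :
    ∑ u ∈ W, (m u : ℝ) ^ 2 ≤ 2 * (4 + 8 * C ^ 2) * C₃ * T * Real.log T := by
  set L := Real.log T with hLd
  have hL0 : 0 < L := by linarith
  have hy : 0 < 1 / L := by positivity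
  have hy1 : 1 / L ≤ 1 := by rw [div_le_one hL0]; exact hL
  set A := 3 * T / 2 - T / 20
  set B := 3 * T / 2 + T / 20
  have hAB : A ≤ B := by simp only [A, B]; linarith
  have h1 : ∑ u ∈ W, (m u : ℝ) ^ 2 * (L / 2) ≤ ∑ u ∈ W, ∫ x in A..B,
      (m u : ℝ) ^ 2 * ((1 / L) / ((x - u) ^ 2 + (1 / L) ^ 2)) ^ 2 := by
    refine Finset.sum_le_sum fun u hu => ?_
    rw [intervalIntegral.integral_const_mul]
    refine mul_le_mul_of_nonneg_left ?_ (sq_nonneg _)
    have h2 := abs_le.1 (hn u hu)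
    have h3 := int_pk hy (u := u) (A := A) (B := B) (by simp only [A]; linarith)
      (by simp only [B]; linarith)
    have h4 : 1 / (2 * (1 / L)) = L / 2 := by field_simp
    rwa [h4] at h3
  have hi : ∀ u ∈ W, IntervalIntegrable (fun x : ℝ =>
      (m u : ℝ) ^ 2 * ((1 / L) / ((x - u) ^ 2 + (1 / L) ^ 2)) ^ 2) volume A B :=
    fun u _ => (continuous_const.mul (cont_pk hy u)).intervalIntegrable _ _
  rw [← intervalIntegral.integral_finsetSum hi, ← Finset.sum_mul] at h1
  have h2 : ∫ x in A..B, ∑ u ∈ W, (m u : ℝ) ^ 2 * ((1 / L) / ((x - u) ^ 2 + (1 / L) ^ 2)) ^ 2 ≤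
      ∫ x in A..B, (4 + 8 * C ^ 2) * L ^ 2 * V x := by
    refine intervalIntegral.integral_mono_on hAB
      ((continuous_finsetSum _ fun u _ => continuous_const.mul (cont_pk hy u)).intervalIntegrable
        _ _) ((continuous_const.mul hVc).intervalIntegrable _ _) fun x hx => ?_
    refine le_trans ?_ (Fs_sq hc hC (by linarith) hL hZ hV hM (x := x)
      (abs_le.2 ⟨by have := hx.1; simp only [A] at this; linarith,
        by have := hx.2; simp only [B] at this; linarith⟩))
    refine le_trans ?_ (Finset.sum_sq_le_sq_sum_of_nonneg fun u _ => by positivity)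
    simp only [mul_pow]
    exact Finset.sum_le_sum_of_subset_of_nonneg hW fun u _ _ => by positivity
  have h3 : ∫ x in A..B, V x ≤ ∫ x in T..(2 * T), V x :=
    intervalIntegral.integral_mono_interval (by simp only [A]; linarith) hAB
      (by simp only [B]; linarith) (Eventually.of_forall fun x => (zero_le_one.trans (hV x)))
      (hVc.intervalIntegrable _ _)
  rw [intervalIntegral.integral_const_mul] at h2
  have h4 : (4 + 8 * C ^ 2) * L ^ 2 * ∫ x in A..B, V x ≤ (4 + 8 * C ^ 2) * L ^ 2 * (C₃ * T) :=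
    mul_le_mul_of_nonneg_left (h3.trans hI) (by positivity)
  have h5 : (∑ u ∈ W, (m u : ℝ) ^ 2) * L ≤ (2 * (4 + 8 * C ^ 2) * C₃ * T * L) * L := by
    linarith
  exact le_of_mul_le_mul_right h5 hL0

theorem cnt : CmpStmt → MajStmt → CntStmt := by
  intro hc hm C hC
  obtain ⟨C₃, hC₃, hev⟩ := hm C 1 hC le_rfl
  set K := 2 * (4 + 8 * C ^ 2) * C₃ with hK
  have hK1 : 1 ≤ K := by rw [hK]; nlinarith [sq_nonneg C]
  have hsK : 1 ≤ √K := Real.one_le_sqrt.2 hK1
  refine ⟨16 * √K, by linarith, ?_⟩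
  filter_upwards [hev, eventually_ge_atTop (2400 : ℝ),
    Real.tendsto_log_atTop.eventually_ge_atTop (800 * C)] with T ⟨V, hVc, hV, hI, hM⟩ hT hL
  intro U m a y hZ ha ha' hy hy'
  classical
  set L := Real.log T with hLd
  have hL1 : 1 ≤ L := by linarith
  have hL0 : 0 < L := by linarith
  have hT0 : 0 < T := by linarith
  have ha4 : a ≤ 4 := ha'.trans (div_le_self (by norm_num) hL1)
  refine ⟨continuous_finsetSum _ fun u _ => continuous_const.mul (cont_ang a y u),
    fun x => Finset.sum_nonneg fun u _ => mul_nonneg (Nat.cast_nonneg _) (ang_nonneg ha hy x u), ?_⟩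
  have hbU : bad U m a ⊆ U := Finset.filter_subset _ _
  unfold beta
  have hi : ∀ u ∈ bad U m a, IntervalIntegrable (fun x => (m u : ℝ) * ang a y x u) volume
      (3 * T / 2 - T / 30) (3 * T / 2 + T / 30) :=
    fun u _ => (continuous_const.mul (cont_ang a y u)).intervalIntegrable _ _
  rw [intervalIntegral.integral_finsetSum hi,
    ← Finset.sum_filter_add_sum_filter_not (bad U m a) fun u => |u - 3 * T / 2| ≤ T / 25]
  simp only [intervalIntegral.integral_const_mul]
  set W := (bad U m a).filter fun u => |u - 3 * T / 2| ≤ T / 25 with hW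
  refine add_le_add ?_ ?_
  · have h1 := sum_sq hc hC (by linarith) hL1 hZ hVc hV hI (hM U m hZ) (W := W)
      ((Finset.filter_subset _ _).trans hbU) fun u hu => (Finset.mem_filter.1 hu).2
    have h2 : (∑ u ∈ W, (m u : ℝ)) ^ 2 ≤ W.card * ∑ u ∈ W, (m u : ℝ) ^ 2 :=
      sq_sum_le_card_mul_sum_sq
    have h3 : (W.card : ℝ) ≤ (bad U m a).card := by
      exact_mod_cast Finset.card_le_card (Finset.filter_subset _ _)
    have h4 : (∑ u ∈ W, (m u : ℝ)) ^ 2 ≤ (bad U m a).card * (K * T * L) :=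
      h2.trans (mul_le_mul h3 h1 (Finset.sum_nonneg fun u _ => sq_nonneg _) (Nat.cast_nonneg _))
    have h5 : ∑ u ∈ W, (m u : ℝ) ≤ √K * √((bad U m a).card * T / L) * L := by
      refine Real.le_sqrt_of_sq_le h4 |>.trans (le_of_eq ?_)
      have e : ((bad U m a).card : ℝ) * (K * T * L) =
          K * ((bad U m a).card * T / L) * L ^ 2 := by field_simp
      rw [e, Real.sqrt_mul (by positivity), Real.sqrt_mul (by linarith), Real.sqrt_sq hL0.le]
    calc _ ≤ ∑ u ∈ W, (m u : ℝ) * (16 / L) := by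
          refine Finset.sum_le_sum fun u _ => mul_le_mul_of_nonneg_left ?_ (Nat.cast_nonneg _)
          refine (int_near ha hy _ _ _).trans ?_
          have : 16 / L = 4 * (4 / L) := by ring
          linarith
      _ ≤ √K * √((bad U m a).card * T / L) * L * (16 / L) := by
          rw [← Finset.sum_mul]
          exact mul_le_mul_of_nonneg_right h5 (by positivity)
      _ = _ := by field_simp
  · have hq : a * (y / (T / 200)) ≤ 800 / (L ^ 2 * T) := by
      have h1 : y / (T / 200) ≤ 1 / L / (T / 200) := div_le_div_of_nonneg_right hy' (by positivity)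
      refine (mul_le_mul ha' h1 (by positivity) (by positivity)).trans (le_of_eq ?_)
      field_simp
      norm_num
    calc _ ≤ ∑ u ∈ (bad U m a).filter (fun u => ¬ |u - 3 * T / 2| ≤ T / 25),
            (m u : ℝ) * (800 / (L ^ 2 * T)) := by
          refine Finset.sum_le_sum fun u hu => mul_le_mul_of_nonneg_left ?_ (Nat.cast_nonneg _)
          refine (int_far ha hy (by positivity) ?_).trans hq
          have h1 := (Finset.mem_filter.1 hu).2
          rw [not_le, lt_abs] at h1
          rcases h1 with h1 | h1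
          · right; linarith
          · left; linarith
      _ ≤ ∑ u ∈ U, (m u : ℝ) * (800 / (L ^ 2 * T)) :=
          Finset.sum_le_sum_of_subset_of_nonneg ((Finset.filter_subset _ _).trans hbU)
            fun u _ _ => by positivity
      _ ≤ C * T * L * (800 / (L ^ 2 * T)) := by
          rw [← Finset.sum_mul]
          exact mul_le_mul_of_nonneg_right hZ.card (by positivity)
      _ = 800 * C / L := by field_simp
      _ ≤ 1 := by rw [div_le_one hL0]; exact hL

end Pool.Agent.MP_ca0a54_nt.H76
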